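import Mathlib
import Pool.Agent.T2h83.AM.Mu1

/-!
# The Liouville function at products of an arbitrary polynomial and of linear factors whose constant terms lie in any
residue classes of almost all moduli

For almost all moduli `q`, up to `N / log ^ B N`, for all vectors of residue classes modulo `q` and all polynomials `g`,
Chowla's conjecture holds, with a saving of any power of `log N`, for the polynomials `g ∏ (a i T + b i)` for almost all
vectors `b` of constant terms in these classes. For the largest moduli there are only `log ^ B N` constant terms in each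
class.

Method: large values of the exponential sum of `λ` on the translates `β + c / q` are counted for all moduli at once (large
sieve on cells, Fejer kernels); this gives, for almost all `q`, the mean square of arbitrary correlations in ALL residue
classes modulo `q`. The input is the uniform bound for the exponential sum (`Pool.Agent.H373R2.T7.sup_liou`).

From Mathlib: `ArithmeticFunction.cardFactors n`: the number of the prime factors of `n` with multiplicity;
`Polynomial.eval x f`: the value `f(x)`; `Finset.Ioc x y`: the integers `n` with `x < n ≤ y`.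
-/

set_option autoImplicit false

namespace Pool.Agent.Results.MP_648c71_nt.AllClassesAlmostAllModuli

open Finset Polynomial

/-- The Liouville function on the integers, `λ(-m) = λ(m)` and `λ(0) = 0`. -/
def lam (m : ℤ) : ℤ := if m = 0 then 0 else (-1) ^ ArithmeticFunction.cardFactors m.natAbs

/-- The polynomial `g ∏ (a i T + b i)`, the product over `i ∈ I` -/
noncomputable def f {k : ℕ} (g : ℤ[X]) (I : Finset (Fin k)) (a b : Fin k → ℕ) : ℤ[X] :=
  g * ∏ i ∈ I, (C (a i : ℤ) * X + C (b i : ℤ))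

/-- The sum of `λ(F(n))` over the integers `x < n ≤ y` with `n ≡ m` modulo `l` -/
noncomputable def S (F : ℤ[X]) (l m x y : ℕ) : ℤ := ∑ n ∈ (Ioc x y).filter (fun n => n ≡ m [MOD l]), lam (F.eval (n : ℤ))

lemma lam_mul (a b : ℤ) : lam (a * b) = lam a * lam b := by
  unfold lam
  by_cases ha : a = 0
  · simp [ha]
  by_cases hb : b = 0
  · simp [hb]
  rw [if_neg (mul_ne_zero ha hb), if_neg ha, if_neg hb, Int.natAbs_mul,
    ArithmeticFunction.cardFactors_mul (Int.natAbs_ne_zero.2 ha) (Int.natAbs_ne_zero.2 hb), pow_add]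

lemma lam_prod {ι : Type*} (I : Finset ι) (v : ι → ℤ) : lam (∏ i ∈ I, v i) = ∏ i ∈ I, lam (v i) := by
  classical
  induction I using Finset.induction_on with
  | empty => simp [lam]
  | insert i I hi ih => rw [prod_insert hi, prod_insert hi, lam_mul, ih]

lemma lam_abs (a : ℤ) : |((lam a : ℤ) : ℝ)| ≤ 1 := by
  unfold lam
  split_ifs
  · simp
  · push_cast
    rw [abs_pow, abs_neg, abs_one, one_pow]

lemma lam_nat (m : ℕ) (hm : 1 ≤ m) : ((lam (m : ℤ) : ℤ) : ℂ) = Pool.Agent.H373R2.T7.liR m := by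
  unfold lam Pool.Agent.H373R2.T7.liR
  rw [if_neg (by exact_mod_cast (by omega : m ≠ 0)), Int.natAbs_natCast]
  push_cast
  rfl

lemma eval_f {k : ℕ} (g : ℤ[X]) (I : Finset (Fin k)) (a b : Fin k → ℕ) (n : ℕ) :
    (f g I a b).eval (n : ℤ) = g.eval (n : ℤ) * ∏ i ∈ I, ((a i * n + b i : ℕ) : ℤ) := by
  unfold f
  rw [eval_mul, eval_prod]
  congr 1
  refine prod_congr rfl fun i _ => ?_
  rw [eval_add, eval_mul, eval_C, eval_X, eval_C]
  push_cast
  rfl

/-- For all `k`, `U`, `K`, `A` there are `B` and `N₀` with the following property. Let `N ≥ N₀` and let `Q` be an integer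
with `Q log ^ B N ≤ N`. For all `q` in `(Q, 2 Q]`, except for at most `Q / log ^ U N` of them, for all `1 ≤ a i ≤ A`, for
ALL integers `0 ≤ r i ≤ A N` and all polynomials `g t` with integer coefficients, where `t` ranges over at most `log ^ K N`
indices, the following holds for all the vectors `j` of integers `0 ≤ j i ≤ N / q`, except for at most the proportion
`1 / log ^ U N` of them: for all `t`, all nonempty sets `I` of indices, all progressions `m` modulo `l ≤ log ^ K N` and all
intervals `(x, y] ⊆ (0, N]` the sum of `λ(f(n))` over the `n` in the progression and in the interval has absolute value at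
most `N / log ^ U N`, where `f = g t ∏ (a i T + r i + q j i)`, the product over `i ∈ I`. -/
theorem result (k U K A : ℕ) : ∃ B N₀ : ℕ, ∀ N : ℕ, N₀ ≤ N → ∀ Q : ℕ, (Q : ℝ) * Real.log N ^ B ≤ N →
    ∃ E : Finset ℕ, (E.card : ℝ) ≤ Q / Real.log N ^ U ∧ ∀ q ∈ Ioc Q (2 * Q), q ∉ E →
      ∀ a : Fin k → ℕ, (∀ i, 1 ≤ a i ∧ a i ≤ A) → ∀ r : Fin k → ℕ, (∀ i, r i ≤ A * N) →
      ∀ T : ℕ, (T : ℝ) ≤ Real.log N ^ K → ∀ g : Fin T → ℤ[X],
      ∃ D : Finset (Fin k → ℕ), (D.card : ℝ) ≤ ((N / q + 1 : ℕ) : ℝ) ^ k / Real.log N ^ U ∧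
        ∀ j : Fin k → ℕ, (∀ i, j i ≤ N / q) → j ∉ D → ∀ t, ∀ I : Finset (Fin k), I.Nonempty →
          ∀ l m : ℕ, 1 ≤ l → (l : ℝ) ≤ Real.log N ^ K → ∀ x y : ℕ, x ≤ y → y ≤ N →
            |((S (f (g t) I a (fun i => r i + q * j i)) l m x y : ℤ) : ℝ)| ≤ N / Real.log N ^ U := by
  classical
  obtain ⟨B, N₁, h1⟩ := Pool.Agent.T2h83.AM.gen_h Pool.Agent.H373R2.T7.liR Pool.Agent.H373R2.T7.liR_norm
    Pool.Agent.H373R2.T7.sup_liou k U (4 * K + 1) A
  obtain ⟨N₂, h2⟩ := Pool.Agent.H373R2.T7.ev_L' 8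
  refine ⟨B, N₁ + N₂, fun N hN Q hQ => ?_⟩
  obtain ⟨E, e1, e2⟩ := h1 N (by omega) Q hQ
  have hL := h2 N (by omega)
  have hL1 : 1 ≤ Real.log N := by linarith
  refine ⟨E, e1, fun q hq hqE a ha r hr T hT g => ?_⟩
  -- the index set: `t`, `l`, `m`
  obtain ⟨M, hM⟩ : ∃ M, M = ⌊Real.log N ^ K⌋₊ + 1 := ⟨_, rfl⟩
  have hM1 : (M : ℝ) ≤ 2 * Real.log N ^ K := by
    rw [hM]
    push_cast
    have := Nat.floor_le (show 0 ≤ Real.log N ^ K by positivity)
    have : 1 ≤ Real.log N ^ K := one_le_pow₀ hL1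
    linarith
  have hTM : (((T * (M * M)) : ℕ) : ℝ) ≤ Real.log N ^ (4 * K + 1) := by
    push_cast
    calc (T : ℝ) * (M * M) ≤ Real.log N ^ K * ((2 * Real.log N ^ K) * (2 * Real.log N ^ K)) := by gcongr
      _ = 4 * Real.log N ^ (3 * K) := by ring
      _ ≤ Real.log N * Real.log N ^ (4 * K) := by
          apply mul_le_mul (by linarith) (pow_le_pow_right₀ hL1 (by omega)) (by positivity) (by linarith)
      _ = _ := by ring
  obtain ⟨X, x1, x2⟩ := e2 q hq hqE a ha r hr (T * (M * M)) hTM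
    (fun τ n => if hτ : τ / (M * M) < T then
      (if n ≡ τ % M [MOD (τ / M % M)] then ((lam ((g ⟨τ / (M * M), hτ⟩).eval (n : ℤ)) : ℤ) : ℂ) else 0) else 0) (by
      intro τ n
      split_ifs
      · have := lam_abs ((g ⟨τ / (M * M), by assumption⟩).eval (n : ℤ))
        rw [← Complex.ofReal_intCast, Complex.norm_real, Real.norm_eq_abs]
        exact this
      · simp
      · simp)
  refine ⟨X, x1, fun j hj hjX t I hI l m hl hlK x y hxy hy => ?_⟩
  have hM0 : 0 < M := by rw [hM]; exact Nat.succ_pos _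
  have hlM : l < M := by
    rw [hM]
    exact Nat.lt_succ_of_le (Nat.le_floor hlK)
  obtain ⟨m', hm'⟩ : ∃ m', m' = m % l := ⟨_, rfl⟩
  have hmM : m' < M := lt_of_lt_of_le (by rw [hm']; exact Nat.mod_lt _ hl) hlM.le
  obtain ⟨τ, hτ⟩ : ∃ τ, τ = (t * M + l) * M + m' := ⟨_, rfl⟩
  have hτ1 : τ / M = t * M + l := by
    rw [hτ, Nat.add_comm, Nat.add_mul_div_right _ _ hM0, Nat.div_eq_of_lt hmM, Nat.zero_add]
  have hτ2 : τ % M = m' := by
    rw [hτ, Nat.add_comm, Nat.add_mul_mod_self_right, Nat.mod_eq_of_lt hmM]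
  have hτ3 : τ / M % M = l := by
    rw [hτ1, Nat.add_comm, Nat.add_mul_mod_self_right, Nat.mod_eq_of_lt hlM]
  have hτ4 : τ / (M * M) = t := by
    rw [← Nat.div_div_eq_div_mul, hτ1, Nat.add_comm, Nat.add_mul_div_right _ _ hM0, Nat.div_eq_of_lt hlM, Nat.zero_add]
  have hτ5 : τ < T * (M * M) := by
    rw [← Nat.div_lt_iff_lt_mul (by positivity), hτ4]
    exact t.isLt
  have h3 := x2 j hj hjX τ hτ5 I hI x y hxy hy
  refine le_trans (le_of_eq ?_) h3
  rw [← Real.norm_eq_abs, ← Complex.norm_real]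
  congr 1
  unfold S
  rw [sum_filter]
  push_cast
  refine sum_congr rfl fun n hn => ?_
  rw [mem_Ioc] at hn
  have hτ6 : τ / (M * M) < T := by rw [hτ4]; exact t.isLt
  have hn' : ∀ i, 1 ≤ a i * n + (r i + q * j i) := by
    intro i
    have : 1 ≤ a i * n := Nat.mul_pos (ha i).1 (by omega)
    omega
  rw [dif_pos hτ6, hτ2, hτ3]
  have e3 : (n ≡ m [MOD l]) ↔ (n ≡ m' [MOD l]) := by
    rw [hm']
    unfold Nat.ModEq
    rw [Nat.mod_mod]
  have e4 : (⟨τ / (M * M), hτ6⟩ : Fin T) = t := Fin.ext hτ4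
  by_cases h4 : n ≡ m [MOD l]
  · rw [if_pos h4, if_pos (e3.1 h4), e4, eval_f, lam_mul, lam_prod]
    push_cast
    congr 1
    refine prod_congr rfl fun i _ => ?_
    have := lam_nat _ (hn' i)
    rw [← this]
    push_cast
    rfl
  · rw [if_neg h4, if_neg (fun h => h4 (e3.2 h)), zero_mul]
    simp

end Pool.Agent.Results.MP_648c71_nt.AllClassesAlmostAllModuli
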