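import Mathlib
import Pool.Agent.T2h83.ME.Lin2

/-!
# The Liouville function at products of two linear polynomials whose resultants lie in a class of any modulus

For EVERY modulus `q ≤ N ^ (1 - ρ)` with at most `log ^ T N` divisors, and every residue class `r` modulo `q` with
`gcd(r, q) ≤ log ^ T N`, all but at most `N / (q log ^ A N)` of the integers `h` in the class have the following property:
Chowla's conjecture holds (sums at most `ε N`, in all short progressions and all windows) for ALL polynomials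
`(a₁ T + b₁)(a₂ T + b₂)` with bounded leading coefficients and constant terms up to `C N` whose resultant `a₁ b₂ - a₂ b₁`
is `h`; moreover the sums of `f(a₁ n + b₁) λ(a₂ n + b₂)` are small for any given multiplicative function `|f| ≤ 1`.

Method (project `T2h83/ME`): both functions are replaced by bilinear sums over the primes between `N ^ κ` and `N ^ σ` (Turan's
inequality), and the mean square of the correlation over the class is computed by the circle method. The sums over the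
classes modulo `k q` are sorted by the greatest common divisor of the argument with `k q`; characters of a large conductor,
for which the bilinear sums are large, are few, and for them the correlation with the shifted character is estimated by
complete sums of the products of two shifted characters.

From Mathlib: `ArithmeticFunction.cardFactors n`: the number of the prime factors of `n` with multiplicity;
`Polynomial.eval x f`: the value `f(x)`; `Finset.Ioc x y`: the integers `n` with `x < n ≤ y`; `Nat.divisors q`: the divisors.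
-/

set_option autoImplicit false

namespace Pool.Agent.Results.MP_648c71_nt.EveryModulusLinearPairs

open Finset Polynomial

/-- The Liouville function on the integers, `λ(-m) = λ(m)` and `λ(0) = 0`. -/
def lam (m : ℤ) : ℤ := if m = 0 then 0 else (-1) ^ ArithmeticFunction.cardFactors m.natAbs

/-- The polynomial `(a₁ T + b₁)(a₂ T + b₂)` -/
noncomputable def P (a₁ b₁ a₂ b₂ : ℕ) : ℤ[X] := (C (a₁ : ℤ) * X + C (b₁ : ℤ)) * (C (a₂ : ℤ) * X + C (b₂ : ℤ))

/-- The sum of `λ(F(n))` over the integers `x < n ≤ y` with `n ≡ m` modulo `l` -/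
noncomputable def S (F : ℤ[X]) (l m x y : ℕ) : ℤ := ∑ n ∈ (Ioc x y).filter (fun n => n ≡ m [MOD l]), lam (F.eval (n : ℤ))

/-- The sum of `f(a₁ n + b₁) λ(a₂ n + b₂)` over the integers `x < n ≤ y` with `n ≡ m` modulo `l` -/
noncomputable def M (f : ℕ → ℂ) (a₁ b₁ a₂ b₂ l m x y : ℕ) : ℂ :=
  ∑ n ∈ (Ioc x y).filter (fun n => n ≡ m [MOD l]), f (a₁ * n + b₁) * (lam ((a₂ * n + b₂ : ℕ) : ℤ) : ℂ)

lemma lam_mul (a b : ℤ) : lam (a * b) = lam a * lam b := by
  unfold lam
  by_cases ha : a = 0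
  · simp [ha]
  by_cases hb : b = 0
  · simp [hb]
  rw [if_neg (mul_ne_zero ha hb), if_neg ha, if_neg hb, Int.natAbs_mul,
    ArithmeticFunction.cardFactors_mul (Int.natAbs_ne_zero.2 ha) (Int.natAbs_ne_zero.2 hb), pow_add]

lemma lam_nat (m : ℕ) (hm : 1 ≤ m) : ((lam (m : ℤ) : ℤ) : ℂ) = Pool.Agent.H373R2.T7.liR m := by
  unfold lam Pool.Agent.H373R2.T7.liR
  rw [if_neg (by exact_mod_cast (by omega : m ≠ 0)), Int.natAbs_natCast]
  push_cast
  rfl

lemma eval_P (a₁ b₁ a₂ b₂ n : ℕ) : (P a₁ b₁ a₂ b₂).eval (n : ℤ) = ((a₁ * n + b₁ : ℕ) : ℤ) * ((a₂ * n + b₂ : ℕ) : ℤ) := by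
  unfold P
  rw [eval_mul, eval_add, eval_mul, eval_C, eval_X, eval_C, eval_add, eval_mul, eval_C, eval_X, eval_C]
  push_cast
  rfl

lemma liR_coprime (m n : ℕ) (h : m.Coprime n) : Pool.Agent.H373R2.T7.liR (m * n) =
    Pool.Agent.H373R2.T7.liR m * Pool.Agent.H373R2.T7.liR n := by
  rcases Nat.eq_zero_or_pos m with hm | hm
  · subst hm
    have : n = 1 := (Nat.coprime_zero_left n).1 h
    subst this
    simp [Pool.Agent.H373R2.T7.liR]
  rcases Nat.eq_zero_or_pos n with hn | hn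
  · subst hn
    have : m = 1 := (Nat.coprime_zero_right m).1 h
    subst this
    simp [Pool.Agent.H373R2.T7.liR]
  exact Pool.Agent.R460.SL.liR_mul hm.ne' hn.ne'

lemma liR_conj (n : ℕ) : (starRingEnd ℂ) (Pool.Agent.H373R2.T7.liR n) = Pool.Agent.H373R2.T7.liR n := by
  unfold Pool.Agent.H373R2.T7.liR
  rw [map_pow, map_neg, map_one]

/-- Let `ρ > 0`, `ε > 0`, `C`, `A`, `T` be fixed and let `N` be sufficiently large. For EVERY modulus `q ≤ N ^ (1 - ρ)` with
at most `log ^ T N` divisors, every integer `r` with `gcd(r, q) ≤ log ^ T N` and every multiplicative function `f` with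
`|f| ≤ 1` there is a set `E` of at most `N / (q log ^ A N)` integers such that for all positive integers `a₁`, `a₂`, `l ≤ C`
and all integers `0 ≤ b₁, b₂ ≤ C N` with `a₁ b₂ - a₂ b₁ ≡ r` modulo `q` and `a₁ b₂ - a₂ b₁ ∉ E`, for all classes `m` modulo
`l` and all `x ≤ y ≤ N`: the sum of `λ((a₁ n + b₁)(a₂ n + b₂))` and the sum of `f(a₁ n + b₁) λ(a₂ n + b₂)` over the integers
`x < n ≤ y` with `n ≡ m` modulo `l` have absolute value at most `ε N`. -/
theorem result (ρ ε : ℝ) (hρ : 0 < ρ) (hε : 0 < ε) (C A T : ℕ) : ∃ N₀ : ℕ, ∀ N : ℕ, N₀ ≤ N →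
    ∀ q : ℕ, 1 ≤ q → (q : ℝ) ≤ (N : ℝ) ^ (1 - ρ) → (q.divisors.card : ℝ) ≤ Real.log N ^ T →
    ∀ r : ℤ, (Int.gcd r q : ℝ) ≤ Real.log N ^ T →
    ∀ f : ℕ → ℂ, (∀ n, ‖f n‖ ≤ 1) → (∀ m n : ℕ, m.Coprime n → f (m * n) = f m * f n) →
    ∃ E : Finset ℤ, (E.card : ℝ) ≤ N / (q * Real.log N ^ A) ∧
      ∀ a₁ b₁ a₂ b₂ : ℕ, 1 ≤ a₁ → a₁ ≤ C → 1 ≤ a₂ → a₂ ≤ C → b₁ ≤ C * N → b₂ ≤ C * N →
      (a₁ : ℤ) * b₂ - a₂ * b₁ ≡ r [ZMOD q] → (a₁ : ℤ) * b₂ - a₂ * b₁ ∉ E →
      ∀ l m x y : ℕ, 1 ≤ l → l ≤ C → x ≤ y → y ≤ N →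
        |((S (P a₁ b₁ a₂ b₂) l m x y : ℤ) : ℝ)| ≤ ε * N ∧ ‖M f a₁ b₁ a₂ b₂ l m x y‖ ≤ ε * N := by
  classical
  obtain ⟨ρ', hρ'⟩ : ∃ ρ' : ℝ, ρ' = min ρ (1 / 2) := ⟨_, rfl⟩
  have hρ0 : 0 < ρ' := by rw [hρ']; exact lt_min hρ (by norm_num)
  have hρ1 : ρ' < 1 := by rw [hρ']; exact lt_of_le_of_lt (min_le_right _ _) (by norm_num)
  obtain ⟨N₁, hN₁⟩ := Pool.Agent.T2h83.ME.lin_all Pool.Agent.H373R2.T7.liR_norm liR_conj
    Pool.Agent.H373R2.T7.sup_liou liR_coprime C (A + 1) T hρ0 hρ1 hε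
  obtain ⟨N₂, hN₂⟩ := Filter.eventually_atTop.1 (Pool.Agent.Y614.GJ.Core.ev_log 1 (s := 1) (by norm_num) 2)
  refine ⟨N₁ + N₂ + 1, fun N hN q hq1 hq hτ r hr f hf hm => ?_⟩
  haveI : NeZero q := ⟨by omega⟩
  have hNr1 : (1 : ℝ) ≤ N := by exact_mod_cast (by omega : 1 ≤ N)
  have hq' : (q : ℝ) ≤ (N : ℝ) ^ (1 - ρ') := by
    refine hq.trans (Real.rpow_le_rpow_of_exponent_le hNr1 ?_)
    have : ρ' ≤ ρ := by rw [hρ']; exact min_le_left _ _
    linarith
  obtain ⟨hL2, -⟩ := hN₂ N (by omega)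
  obtain ⟨s, hs⟩ : ∃ s : ZMod q, s = ((-r : ℤ) : ZMod q) := ⟨_, rfl⟩
  have hsg : (Nat.gcd s.val q : ℝ) ≤ Real.log N ^ T := by
    have h1 : Nat.gcd s.val q = Int.gcd r q := by
      have h2 : ((s.val : ℕ) : ℤ) = (-r) % q := by rw [hs, ZMod.val_intCast]
      have h3 : Nat.gcd s.val q = Int.gcd ((-r) % q) q := by rw [← h2, Int.gcd_natCast_natCast]
      rw [h3, Int.gcd_emod, Int.neg_gcd]
    rw [h1]
    exact hr
  obtain ⟨E₁, hE₁, h1⟩ := hN₁ N (by omega) q hq' hτ f hf hm s hsg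
  obtain ⟨E₂, hE₂, h2⟩ := hN₁ N (by omega) q hq' hτ Pool.Agent.H373R2.T7.liR Pool.Agent.H373R2.T7.liR_norm liR_coprime s hsg
  refine ⟨(E₁ ∪ E₂).image (fun n => -n), ?_, ?_⟩
  · have h3 : (((E₁ ∪ E₂).image (fun n => -n)).card : ℝ) ≤ E₁.card + E₂.card := by
      exact_mod_cast card_image_le.trans (card_union_le _ _)
    have hqr : (0 : ℝ) < q := by exact_mod_cast hq1
    have hL0 : 0 < Real.log N := by linarith
    calc (((E₁ ∪ E₂).image (fun n => -n)).card : ℝ) ≤ N / (q * Real.log N ^ (A + 1)) + N / (q * Real.log N ^ (A + 1)) := by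
          linarith
      _ = 2 * (N / (q * Real.log N ^ (A + 1))) := by ring
      _ ≤ Real.log N * (N / (q * Real.log N ^ (A + 1))) := by
          apply mul_le_mul_of_nonneg_right hL2 (by positivity)
      _ = _ := by
          rw [pow_succ (Real.log N) A]
          field_simp
  · intro a₁ b₁ a₂ b₂ ha₁ ha₁C ha₂ ha₂C hb₁ hb₂ hcl hnE l m x y hl hlC hxy hyN
    have hcl' : ((((a₂ : ℤ) * b₁ - a₁ * b₂ : ℤ)) : ZMod q) = s := by
      rw [hs, ZMod.intCast_eq_intCast_iff]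
      have h3 : (a₂ : ℤ) * b₁ - a₁ * b₂ = -((a₁ : ℤ) * b₂ - a₂ * b₁) := by ring
      rw [h3]
      exact hcl.neg
    have hn : (a₂ : ℤ) * b₁ - a₁ * b₂ ∉ E₁ ∪ E₂ := by
      intro h
      apply hnE
      rw [mem_image]
      exact ⟨_, h, by ring⟩
    rw [mem_union, not_or] at hn
    have k1 := h1 a₁ a₂ l b₁ b₂ ha₁ ha₁C ha₂ ha₂C hl hlC hb₁ hb₂ hcl' hn.1 m x y hxy hyN
    have k2 := h2 a₁ a₂ l b₁ b₂ ha₁ ha₁C ha₂ ha₂C hl hlC hb₁ hb₂ hcl' hn.2 m x y hxy hyN
    have hpos : ∀ (a b n : ℕ), 1 ≤ a → 0 < n → 1 ≤ a * n + b := by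
      intro a b n h3 h4
      have : 0 < a * n := Nat.mul_pos h3 h4
      omega
    constructor
    · have e1 : (((S (P a₁ b₁ a₂ b₂) l m x y : ℤ) : ℝ) : ℂ) = ∑ n ∈ (Ioc x y).filter (fun n => n ≡ m [MOD l]),
          Pool.Agent.H373R2.T7.liR (a₁ * n + b₁) * Pool.Agent.H373R2.T7.liR (a₂ * n + b₂) := by
        unfold S
        push_cast
        refine sum_congr rfl fun n hn' => ?_
        rw [mem_filter, mem_Ioc] at hn'
        rw [eval_P, lam_mul]
        push_cast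
        rw [← lam_nat (a₁ * n + b₁) (hpos a₁ b₁ n ha₁ (by omega)), ← lam_nat (a₂ * n + b₂) (hpos a₂ b₂ n ha₂ (by omega))]
        push_cast
        rfl
      rw [← e1, Complex.norm_real, Real.norm_eq_abs] at k2
      exact k2
    · have e1 : M f a₁ b₁ a₂ b₂ l m x y = ∑ n ∈ (Ioc x y).filter (fun n => n ≡ m [MOD l]),
          f (a₁ * n + b₁) * Pool.Agent.H373R2.T7.liR (a₂ * n + b₂) := by
        unfold M
        refine sum_congr rfl fun n hn' => ?_
        rw [mem_filter, mem_Ioc] at hn'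
        rw [lam_nat (a₂ * n + b₂) (hpos a₂ b₂ n ha₂ (by omega))]
      rw [e1]
      exact k1

end Pool.Agent.Results.MP_648c71_nt.EveryModulusLinearPairs
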