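import Mathlib
import Pool.Agent.T2h83.EC.Ph
import Pool.Agent.T2h83.EC.Gen
import Pool.Agent.T2h53.ML.Cls

/-!
# The Liouville function at products of an arbitrary polynomial and of blocks of linear factors displaced in all the residue
classes of almost all moduli, up to `δ N`

A block is a product of an odd number of linear polynomials with integer coefficients, or of two of them, no two
proportional. For arbitrary polynomials `f` the sums of `λ(f(n) ∏ h i (c i n + s i))` over intervals and progressions are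
`≤ ε N`, where the `h i` are fixed blocks and the `s i` are almost all the integers of arbitrary residue classes of almost
every modulus `q` up to `δ N`: for the largest moduli there are only `1 / δ` displacements of each block, a bounded number.

Method: if the exponential sum of the block is small at all phases, then for almost all `q ≤ δ N` its mean square over the
translates `β + t / q`, `t < q`, of every phase `β` is small: a positive proportion of bad moduli would give many phases with
large values in few cells of length `1 / N`, which the large sieve excludes (`Pool.Agent.T2h83.EC.few_eps`). From the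
starting files and the collection: the exponential sums of blocks at all phases (`Pool.Agent.T2h53.ML.base`, helper53) and
the uniform bound for the exponential sum of `λ` (`Pool.Agent.H373R2.T7.sup_liou`).

From Mathlib: `ArithmeticFunction.cardFactors n`: the number of the prime factors of `n` with multiplicity;
`Polynomial.eval x f`: the value `f(x)`; `Polynomial.comp f g`: the composition `f(g(T))`; `Finset.Ioc x y`: the integers
`n` with `x < n ≤ y`.
-/

set_option autoImplicit false

namespace Pool.Agent.Results.MP_648c71_nt.OddBlocksAllClasses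

open Finset Filter Polynomial

open Classical in
/-- `E` has logarithmic density zero. -/
def LogDensityZero (E : Set ℕ) : Prop := Tendsto
  (fun X : ℕ => (∑ n ∈ Icc 1 X, if n ∈ E then (1 : ℝ) / n else 0) / Real.log X) atTop (nhds 0)

/-- The Liouville function on the integers, `λ(-m) = λ(m)` and `λ(0) = 0`. -/
def lam (m : ℤ) : ℤ := if m = 0 then 0 else (-1) ^ ArithmeticFunction.cardFactors m.natAbs

/-- `h` is the product of an odd number of polynomials `a T + b`, or of two of them, where `a ≥ 1` and `b` are integers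
and no two are proportional. -/
def OddBlock (h : ℤ[X]) : Prop := ∃ (ν : ℕ) (a : Fin ν → ℕ) (b : Fin ν → ℤ), (Odd ν ∨ ν = 2) ∧ (∀ u, 1 ≤ a u) ∧
  (∀ u v, u ≠ v → (a u : ℤ) * b v ≠ a v * b u) ∧ h = ∏ u, (C (a u : ℤ) * X + C (b u))

/-- The polynomial `h(c T + s)` -/
noncomputable def moved (c s : ℕ) (h : ℤ[X]) : ℤ[X] := h.comp (C (c : ℤ) * X + C (s : ℤ))

/-- The sum of `λ(F(n))` over the integers `x < n ≤ y` with `n ≡ m` modulo `l` -/
noncomputable def S (F : ℤ[X]) (l m x y : ℕ) : ℤ :=
  ∑ n ∈ (Ioc x y).filter (fun n => n ≡ m [MOD l]), lam (F.eval (n : ℤ))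

open Pool.Agent.T2h53.ML (H H_norm lamZ lamZ_mul lamZ_prod lamZ_norm lamZ_abs)

lemma lam_eq (m : ℤ) : lam m = lamZ m := rfl

lemma deg_block {ν : ℕ} (a : Fin ν → ℕ) (b : Fin ν → ℤ) (ha : ∀ u, 1 ≤ a u) :
    (∏ u, (C (a u : ℤ) * X + C (b u)) : ℤ[X]).natDegree = ν := by
  rw [natDegree_prod]
  · have h1 : ∀ u, (C (a u : ℤ) * X + C (b u) : ℤ[X]).natDegree = 1 := fun u =>
      natDegree_linear (by have := ha u; exact_mod_cast (by omega : a u ≠ 0))
    rw [sum_congr rfl fun u _ => h1 u, sum_const, card_univ, Fintype.card_fin, smul_eq_mul, mul_one]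
  · intro u _ h0
    have h1 : (C (a u : ℤ) * X + C (b u) : ℤ[X]).natDegree = 1 :=
      natDegree_linear (by have := ha u; exact_mod_cast (by omega : a u ≠ 0))
    rw [h0] at h1
    simp at h1

lemma eval_block {ν : ℕ} (a : Fin ν → ℕ) (b : Fin ν → ℤ) (c s n : ℕ) :
    (lam ((moved c s (∏ u, (C (a u : ℤ) * X + C (b u)))).eval (n : ℤ)) : ℂ) = H a b (c * n + s) := by
  unfold H moved
  rw [lam_eq, eval_comp, eval_prod]
  simp only [eval_add, eval_mul, eval_C, eval_X]
  push_cast
  rfl

/-- **Theorem.** There is one set `E` of logarithmic density zero with the following property. For all `k`, `T`, `A` and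
`ε > 0` there is a `δ > 0` such that, for all blocks `h i` (`i < k`), the following holds for all large `N ∉ E`, and for all
large `N` if each block is a single linear polynomial. Let `Q ≤ δ N`. For all the moduli `q` in `(Q, 2 Q]`, except for at
most `ε Q` of them, for all `1 ≤ c i ≤ A`, for ALL integers `0 ≤ r i ≤ A N` and all the polynomials `f t` with integer
coefficients (`t < T`), for all the vectors `j` of integers `0 ≤ j i ≤ N / q`, except for at most the proportion `ε` of them:
for all `t`, all nonempty sets `I` of indices, all progressions `m` modulo `l` and all intervals `(x, y] ⊆ (0, N]` the sum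
of `λ(F(n))` over the `n` in the progression and in the interval has absolute value at most `ε N`, where `F` is the product
of `f t` and of the `h i (c i T + r i + q j i)`, `i ∈ I`. -/
theorem result : ∃ E : Set ℕ, LogDensityZero E ∧ ∀ (k T A : ℕ) (ε : ℝ), 0 < ε → ∃ δ : ℝ, 0 < δ ∧
    ∀ h : Fin k → ℤ[X], (∀ i, OddBlock (h i)) →
    ∃ N₀ : ℕ, ∀ N : ℕ, N₀ ≤ N → (N ∉ E ∨ ∀ i, (h i).natDegree = 1) → ∀ Q : ℕ, (Q : ℝ) ≤ δ * N →
    ∃ Z : Finset ℕ, (Z.card : ℝ) ≤ ε * Q ∧ ∀ q ∈ Ioc Q (2 * Q), q ∉ Z →
      ∀ c : Fin k → ℕ, (∀ i, 1 ≤ c i ∧ c i ≤ A) → ∀ r : Fin k → ℕ, (∀ i, r i ≤ A * N) → ∀ f : Fin T → ℤ[X],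
      ∃ Y : Finset (Fin k → ℕ), (Y.card : ℝ) ≤ ε * ((N / q + 1 : ℕ) : ℝ) ^ k ∧
        ∀ j : Fin k → ℕ, (∀ i, j i ≤ N / q) → j ∉ Y → ∀ t, ∀ I : Finset (Fin k), I.Nonempty →
          ∀ l m : ℕ, 1 ≤ l → ∀ x y : ℕ, x ≤ y → y ≤ N →
            |((S (f t * ∏ i ∈ I, moved (c i) (r i + q * j i) (h i)) l m x y : ℤ) : ℝ)| ≤ ε * N := by
  classical
  obtain ⟨E, hE, hs⟩ := Pool.Agent.T2h83.EC.bl_sup
  refine ⟨E, hE, fun k T A ε hε => ?_⟩
  obtain ⟨M, hM⟩ : ∃ M, M = ⌊2 / ε⌋₊ + 1 := ⟨_, rfl⟩
  have hM0 : 0 < M := by rw [hM]; exact Nat.succ_pos _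
  obtain ⟨ε', hε', δ, hδ, N₁, h1⟩ := Pool.Agent.T2h83.EC.gen_eps k (T * (M * M)) A ε hε
  refine ⟨δ, hδ, fun h hB => ?_⟩
  choose ν a b hν ha hab hh using hB
  choose N₂ h2 using fun i => hs (2 * A + 1) (ν i) (a i) (b i) (ha i) (hab i) (hν i) ε' hε'
  obtain ⟨N₃, hN₃⟩ := exists_nat_ge (2 / ε)
  refine ⟨N₁ + ∑ i, N₂ i + N₃, fun N hN hNE Q hQ => ?_⟩
  have hN2 : ∀ i, N₂ i ≤ N := by
    intro i
    have : N₂ i ≤ ∑ i, N₂ i := single_le_sum (f := N₂) (fun _ _ => Nat.zero_le _) (mem_univ i)
    omega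
  have hNr : 2 / ε ≤ N := hN₃.trans (by exact_mod_cast (by omega : N₃ ≤ N))
  rw [div_le_iff₀ hε] at hNr
  have hdeg : ∀ i, (h i).natDegree = ν i := by
    intro i
    rw [hh i]
    exact deg_block (a i) (b i) (ha i)
  obtain ⟨Z, z1, z2⟩ := h1 N (by omega) (fun i => H (a i) (b i)) (fun i n => H_norm _ _ _)
    (fun i x => h2 i N (hN2 i) (hNE.imp id (fun h => by rw [← hdeg i]; exact h i)) x) Q hQ
  refine ⟨Z, z1, fun q hq hqZ c hc r hr f => ?_⟩
  obtain ⟨Y, y1, y2⟩ := z2 q hq hqZ c hc r hr
    (fun τ n => if hτ : τ / (M * M) < T then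
      (if n ≡ τ % M [MOD (τ / M % M)] then ((lam ((f ⟨τ / (M * M), hτ⟩).eval (n : ℤ)) : ℤ) : ℂ) else 0) else 0) (by
      intro τ n
      split_ifs
      · exact lamZ_norm _
      · simp
      · simp)
  refine ⟨Y, y1, fun j hj hjY t I hI l m hl x y hxy hy => ?_⟩
  rcases Nat.lt_or_ge l M with hlM | hlM
  · obtain ⟨m', hm'⟩ : ∃ m', m' = m % l := ⟨_, rfl⟩
    have hmM : m' < M := lt_of_lt_of_le (by rw [hm']; exact Nat.mod_lt _ hl) hlM.le
    obtain ⟨τ, hτ⟩ : ∃ τ, τ = (t * M + l) * M + m' := ⟨_, rfl⟩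
    have hτ1 : τ / M = t * M + l := by
      rw [hτ, Nat.add_comm, Nat.add_mul_div_right _ _ hM0, Nat.div_eq_of_lt hmM, Nat.zero_add]
    have hτ2 : τ % M = m' := by
      rw [hτ, Nat.add_comm, Nat.add_mul_mod_self_right, Nat.mod_eq_of_lt hmM]
    have hτ3 : τ / M % M = l := by
      rw [hτ1, Nat.add_comm, Nat.add_mul_mod_self_right, Nat.mod_eq_of_lt hlM]
    have hτ4 : τ / (M * M) = t := by
      rw [← Nat.div_div_eq_div_mul, hτ1, Nat.add_comm, Nat.add_mul_div_right _ _ hM0, Nat.div_eq_of_lt hlM, Nat.zero_add]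
    have hτ5 : τ < T * (M * M) := by
      rw [← Nat.div_lt_iff_lt_mul (by positivity), hτ4]
      exact t.isLt
    have h3 := y2 j hj hjY τ hτ5 I hI x y hxy hy
    refine le_trans (le_of_eq ?_) h3
    rw [← Real.norm_eq_abs, ← Complex.norm_real]
    congr 1
    unfold S
    rw [sum_filter]
    push_cast
    refine sum_congr rfl fun n hn => ?_
    have hτ6 : τ / (M * M) < T := by rw [hτ4]; exact t.isLt
    rw [dif_pos hτ6, hτ2, hτ3]
    have e3 : (n ≡ m [MOD l]) ↔ (n ≡ m' [MOD l]) := by
      rw [hm']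
      unfold Nat.ModEq
      rw [Nat.mod_mod]
    have e4 : (⟨τ / (M * M), hτ6⟩ : Fin T) = t := Fin.ext hτ4
    by_cases h4 : n ≡ m [MOD l]
    · rw [if_pos h4, if_pos (e3.1 h4), e4, eval_mul, eval_prod, lam_eq, lamZ_mul, lamZ_prod]
      push_cast
      congr 1
      refine prod_congr rfl fun i _ => ?_
      rw [hh i]
      exact eval_block (a i) (b i) (c i) (r i + q * j i) n
    · rw [if_neg h4, if_neg (fun h => h4 (e3.2 h)), zero_mul]
      simp
  · -- few terms
    have e1 : |((S (f t * ∏ i ∈ I, moved (c i) (r i + q * j i) (h i)) l m x y : ℤ) : ℝ)| ≤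
        (((Icc 1 y).filter (fun n => n ≡ m [MOD l])).card : ℝ) := by
      have e2 : |S (f t * ∏ i ∈ I, moved (c i) (r i + q * j i) (h i)) l m x y| ≤
          (((Icc 1 y).filter (fun n => n ≡ m [MOD l])).card : ℤ) := by
        unfold S
        refine (abs_sum_le_sum_abs _ _).trans ((sum_le_sum (g := fun _ => (1 : ℤ)) fun n _ => lamZ_abs _).trans ?_)
        rw [sum_const, nsmul_eq_mul, mul_one]
        have : (Ioc x y).filter (fun n => n ≡ m [MOD l]) ⊆ (Icc 1 y).filter (fun n => n ≡ m [MOD l]) := by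
          apply filter_subset_filter
          intro n hn
          rw [mem_Ioc] at hn
          rw [mem_Icc]
          omega
        exact_mod_cast card_le_card this
      exact_mod_cast e2
    refine e1.trans ?_
    have e3 : (((Icc 1 y).filter (fun n => n ≡ m [MOD l])).card : ℝ) ≤ ((y / l : ℕ) : ℝ) + 1 := by
      exact_mod_cast Pool.Agent.T2h53.ML.class_card y l m
    have e4 : ((y / l : ℕ) : ℝ) ≤ ε / 2 * N := by
      have q1 : ((y / l : ℕ) : ℝ) ≤ (y : ℝ) / l := Nat.cast_div_le
      have hl0 : (0 : ℝ) < l := by exact_mod_cast hl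
      have q2 : (y : ℝ) / l ≤ (N : ℝ) / l := by
        apply div_le_div_of_nonneg_right _ hl0.le
        exact_mod_cast hy
      have q3 : (N : ℝ) / l ≤ ε / 2 * N := by
        rw [div_le_iff₀ hl0]
        have q4 : 2 / ε ≤ l := by
          have : 2 / ε < (M : ℝ) := by
            rw [hM]
            push_cast
            exact Nat.lt_floor_add_one _
          have : (M : ℝ) ≤ l := by exact_mod_cast hlM
          linarith
        rw [div_le_iff₀ hε] at q4
        nlinarith [Nat.cast_nonneg (α := ℝ) N]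
      linarith
    linarith

end Pool.Agent.Results.MP_648c71_nt.OddBlocksAllClasses
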