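import Pool.Agent.T2h53.ML.Cls

/-!
# The Liouville function at `f(t) h(t + s)`: `f` arbitrary, `h` a product of an odd number of linear polynomials

From the starting files: the minor arc estimate for products of any number of functions
(`Pool.Agent.Y842.PG.minor`, helper842), the theorem for fixed shifts at all but few scales
(`Pool.Agent.N781.E.om_exc`) and, for two factors, the two point theorem with linear phases
(`Pool.Agent.Y842.PH.one_E`). From Mathlib: `ArithmeticFunction.cardFactors n`: the number of the prime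
factors of `n` with multiplicity; `Finset.Icc 1 y`: the integers `n` with `1 ≤ n ≤ y`; `Finset.range x`: the
integers `0, ..., x - 1`; `Fintype.piFinset fun _ : Fin p => range x`: the `p`-tuples of elements of
`range x`; `Polynomial.eval`, `Polynomial.comp`: values and composition of polynomials.
-/

set_option autoImplicit false

open Finset Filter Polynomial

namespace Pool.Agent.Results.MP_648c71_nt.OddLinearBlocks

open Classical in
/-- `E` has logarithmic density zero. -/
def LogDensityZero (E : Set ℕ) : Prop := Tendsto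
  (fun X : ℕ => (∑ n ∈ Icc 1 X, if n ∈ E then (1 : ℝ) / n else 0) / Real.log X) atTop (nhds 0)

/-- The Liouville function on the integers, `λ(-m) = λ(m)` and `λ(0) = 0`. -/
def lam (m : ℤ) : ℤ := if m = 0 then 0 else (-1) ^ ArithmeticFunction.cardFactors m.natAbs

/-- The product of the polynomials `a i T + b i`. -/
noncomputable def lin {k : ℕ} (a : Fin k → ℕ) (b : Fin k → ℤ) : ℤ[X] :=
  ∏ i, (C (a i : ℤ) * X + C (b i))

/-- The polynomial `f(T + s)`. -/
noncomputable def moved (s : ℕ) (f : ℤ[X]) : ℤ[X] := f.comp (X + C (s : ℤ))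

/-- The integers `1 ≤ t ≤ y` with `t ≡ r` modulo `q`. -/
def AP (q r y : ℕ) : Finset ℕ := (Icc 1 y).filter (fun t => t ≡ r [MOD q])

/-- The sum of the problem: `λ(f(t))` summed over the integers `1 ≤ t ≤ y` with `t ≡ r` modulo `q`. -/
noncomputable def S (f : ℤ[X]) (q r y : ℕ) : ℤ := ∑ t ∈ AP q r y, lam (f.eval (t : ℤ))

/-- The additive energy of order `p` of the family `s 0, ..., s (x - 1)`: the number of the solutions of
`s (v 1) + ... + s (v p) = s (w 1) + ... + s (w p)`. -/
def energy (p x : ℕ) (s : ℕ → ℕ) : ℕ :=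
  (((Fintype.piFinset fun _ : Fin p => range x) ×ˢ (Fintype.piFinset fun _ : Fin p => range x)).filter
    (fun v => ∑ i, s (v.1 i) = ∑ i, s (v.2 i))).card

/-- The integers `s 0, ..., s (x - 1)` are in `[0, D N]` and are spread: their additive energy of order
`p` is at most `D x ^ (2 p) / N` (the order of magnitude of the least possible value). For `p = 1` for
example all the elements of a subset of `[1, N]` with at least `N / D` elements. -/
def Spread (D p N x : ℕ) (s : ℕ → ℕ) : Prop :=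
  (∀ m < x, s m ≤ D * N) ∧ energy p x s * N ≤ D * x ^ (2 * p)

/-- `e(t) = exp(2 π i t)` -/
noncomputable def e (t : ℝ) : ℂ := Complex.exp (2 * Real.pi * t * Complex.I)

open Pool.Agent.T2h53.ML (H H_norm lamZ lamZ_mul lamZ_abs lamZ_norm)

lemma lin_eval {k : ℕ} (a : Fin k → ℕ) (b : Fin k → ℤ) (t : ℕ) :
    (lam ((lin a b).eval (t : ℤ)) : ℂ) = H a b t := by
  unfold lin H
  rw [eval_prod]
  simp only [eval_add, eval_mul, eval_C, eval_X]
  rfl

lemma moved_eval (s : ℕ) (f : ℤ[X]) (t : ℕ) : (moved s f).eval (t : ℤ) = f.eval ((t + s : ℕ) : ℤ) := by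
  unfold moved
  rw [eval_comp]
  simp

open Classical in
/-- **Theorem.** There is one set `E` of logarithmic density zero with the following property. Let
`h = ∏ (a i T + b i)` be a product of `k` linear polynomials, `k` odd or `k = 2`, no two of them
proportional, `a i ≥ 1`. Let `D`, `p` and `ε > 0` be given and let `N ∉ E` be large. Then
(1) for all real `θ` and all `y ≤ N`, `|∑ t ≤ y, e(θ t) λ(h(t))| ≤ ε N`;
(2) for all spread families `s 0, ..., s (x - 1)` of shifts and all weights `g` with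
`∑ t ≤ N, |g t| ^ 2 ≤ D N`, for all but `ε x` of the members `s` of the family the sum of
`g(t) λ(h(t + s))` over the `t ≤ y` with `t ≡ r` modulo `q` is at most `ε N` in absolute value, for all
`y ≤ N` and all residue classes;
(3) for all spread families and all polynomials `f` with integer coefficients, for all but `ε x` of the
members `s` of the family the sums `S` of the problem for the two polynomials `f(T) h(T + s)` and
`h(T) f(T + s)` are at most `ε N` in absolute value, for all `y ≤ N` and all residue classes. -/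
theorem result :
    ∃ E : Set ℕ, LogDensityZero E ∧ ∀ (k : ℕ) (a : Fin k → ℕ) (b : Fin k → ℤ), (∀ i, 1 ≤ a i) →
      (∀ i j, i ≠ j → (a i : ℤ) * b j ≠ a j * b i) → (Odd k ∨ k = 2) →
      ∀ D p : ℕ, 1 ≤ D → 1 ≤ p → ∀ ε : ℝ, 0 < ε → ∃ N₀ : ℕ, ∀ N : ℕ, N₀ ≤ N → N ∉ E →
        (∀ θ : ℝ, ∀ y ≤ N, ‖∑ t ∈ Icc 1 y, e (θ * t) * (lam ((lin a b).eval (t : ℤ)) : ℂ)‖ ≤ ε * N) ∧
        ∀ (x : ℕ) (s : ℕ → ℕ), Spread D p N x s →
          (∀ g : ℕ → ℂ, ∑ n ∈ Icc 1 N, ‖g n‖ ^ 2 ≤ D * N →
            (((range x).filter (fun m => ∃ y ≤ N, ∃ q r : ℕ, 1 ≤ q ∧ ε * N <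
              ‖∑ t ∈ AP q r y, g t * (lam ((moved (s m) (lin a b)).eval (t : ℤ)) : ℂ)‖)).card : ℝ) ≤
                ε * x) ∧
          (∀ f : ℤ[X],
            (((range x).filter (fun m => ∃ y ≤ N, ∃ q r : ℕ, 1 ≤ q ∧
              (ε * N < |(S (f * moved (s m) (lin a b)) q r y : ℝ)| ∨
                ε * N < |(S (lin a b * moved (s m) f) q r y : ℝ)|))).card : ℝ) ≤ ε * x) := by
  obtain ⟨E, hE, h⟩ := Pool.Agent.T2h53.ML.classes
  refine ⟨E, hE, fun k a b ha hab hk D p hD hp ε hε => ?_⟩
  obtain ⟨N₁, h1⟩ := h k a b ha hab hk D p hD hp ε hε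
  obtain ⟨N₂, h2⟩ := h k a b ha hab hk D p hD hp (ε / 2) (by positivity)
  have hmv : ∀ (s t : ℕ), (lam ((moved s (lin a b)).eval (t : ℤ)) : ℂ) = H a b (t + s) := by
    intro s t
    rw [moved_eval, lin_eval]
  refine ⟨N₁ + N₂, fun N hN hNE => ⟨fun θ y hy => ?_, fun x s hs => ⟨fun g hg => ?_, fun f => ?_⟩⟩⟩
  · have h4 := (h1 N (by omega) hNE).1 θ y hy
    simp only [lin_eval]
    exact h4
  · have h4 := ((h1 N (by omega) hNE).2 x s hs).1 g hg
    simp only [hmv]
    exact h4
  · have h4 := (h2 N (by omega) hNE).2 x s hs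
    have hbd : ∀ n : ℕ, ‖(lam (f.eval (n : ℤ)) : ℂ)‖ ≤ 1 := fun n => lamZ_norm _
    have hN0 : (0 : ℝ) ≤ N := Nat.cast_nonneg N
    have h5 := h4.1 (fun n => (lam (f.eval (n : ℤ)) : ℂ)) (by
      refine (sum_le_sum (g := fun _ => (1 : ℝ)) fun n _ => pow_le_one₀ (norm_nonneg _) (hbd n)).trans ?_
      rw [sum_const, Nat.card_Icc, nsmul_eq_mul, mul_one, Nat.add_sub_cancel]
      have : (1 : ℝ) ≤ D := by exact_mod_cast hD
      nlinarith)
    have h6 := h4.2 (fun n => (lam (f.eval (n : ℤ)) : ℂ)) hbd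
    have hmul : ∀ u v : ℤ, lam (u * v) = lam u * lam v := lamZ_mul
    have e1 : ∀ (m q r y : ℕ), (S (f * moved (s m) (lin a b)) q r y : ℂ) =
        ∑ t ∈ (Icc 1 y).filter (fun t => t ≡ r [MOD q]), (lam (f.eval (t : ℤ)) : ℂ) * H a b (t + s m) := by
      intro m q r y
      unfold S AP
      push_cast
      refine sum_congr rfl fun t _ => ?_
      rw [eval_mul, hmul]
      push_cast
      rw [hmv]
    have e2 : ∀ (m q r y : ℕ), (S (lin a b * moved (s m) f) q r y : ℂ) =
        ∑ t ∈ (Icc 1 y).filter (fun t => t ≡ r [MOD q]), H a b t * (lam (f.eval ((t + s m : ℕ) : ℤ)) : ℂ) := by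
      intro m q r y
      unfold S AP
      push_cast
      refine sum_congr rfl fun t _ => ?_
      rw [eval_mul, hmul]
      push_cast
      rw [lin_eval, moved_eval]
      push_cast
      rfl
    have hεN : ε / 2 * N ≤ ε * N := by nlinarith
    have hsub : (range x).filter (fun m => ∃ y ≤ N, ∃ q r : ℕ, 1 ≤ q ∧
        (ε * N < |(S (f * moved (s m) (lin a b)) q r y : ℝ)| ∨
          ε * N < |(S (lin a b * moved (s m) f) q r y : ℝ)|)) ⊆
        (range x).filter (fun m => ∃ y ≤ N, ∃ q r : ℕ, 1 ≤ q ∧ ε / 2 * N <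
            ‖∑ t ∈ (Icc 1 y).filter (fun t => t ≡ r [MOD q]), (lam (f.eval (t : ℤ)) : ℂ) * H a b (t + s m)‖) ∪
          (range x).filter (fun m => ∃ y ≤ N, ∃ q r : ℕ, 1 ≤ q ∧ ε / 2 * N <
            ‖∑ t ∈ (Icc 1 y).filter (fun t => t ≡ r [MOD q]),
              H a b t * (lam (f.eval ((t + s m : ℕ) : ℤ)) : ℂ)‖) := by
      intro m hm
      rw [mem_filter] at hm
      obtain ⟨hmx, y, hy, q, r, hq, hbig⟩ := hm
      rw [mem_union]
      rcases hbig with hbig | hbig
      · left
        refine mem_filter.2 ⟨hmx, y, hy, q, r, hq, ?_⟩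
        rw [← e1, Complex.norm_intCast]
        linarith
      · right
        refine mem_filter.2 ⟨hmx, y, hy, q, r, hq, ?_⟩
        rw [← e2, Complex.norm_intCast]
        linarith
    have h7 : (((range x).filter (fun m => ∃ y ≤ N, ∃ q r : ℕ, 1 ≤ q ∧
        (ε * N < |(S (f * moved (s m) (lin a b)) q r y : ℝ)| ∨
          ε * N < |(S (lin a b * moved (s m) f) q r y : ℝ)|))).card : ℝ) ≤
        (((range x).filter (fun m => ∃ y ≤ N, ∃ q r : ℕ, 1 ≤ q ∧ ε / 2 * N <
            ‖∑ t ∈ (Icc 1 y).filter (fun t => t ≡ r [MOD q]),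
              (lam (f.eval (t : ℤ)) : ℂ) * H a b (t + s m)‖)).card : ℝ) +
          (((range x).filter (fun m => ∃ y ≤ N, ∃ q r : ℕ, 1 ≤ q ∧ ε / 2 * N <
            ‖∑ t ∈ (Icc 1 y).filter (fun t => t ≡ r [MOD q]),
              H a b t * (lam (f.eval ((t + s m : ℕ) : ℤ)) : ℂ)‖)).card : ℝ) := by
      exact_mod_cast (card_le_card hsub).trans (card_union_le _ _)
    linarith

end Pool.Agent.Results.MP_648c71_nt.OddLinearBlocks
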